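import Pool.Agent.Y291.DB.Defs

set_option autoImplicit false

/-! # Doubling indices on the quotients of the plane by groups of Euclidean isometries

`ℂ/G` with the metric `ρ |dz|²`: the functions on it and the subsets of it are the `G`-invariant
ones of the plane.  Definitions and statements of the geometric parts. -/

namespace Pool.Agent.N245.DS

open MeasureTheory

/-- The length of the curve `γ : [0, 1] → ℂ` in the metric `ρ |dz|²`. -/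
noncomputable def len (ρ : ℂ → ℝ) (γ : ℝ → ℂ) : ℝ :=
  ∫ s in (0 : ℝ)..1, Real.sqrt (ρ (γ s)) * ‖deriv γ s‖

/-- The Riemannian distance on `ℂ/G` between the classes of `p` and `q`: the infimum of the lengths
of the `C¹` curves from `p` to a point of the class of `q`. -/
noncomputable def gdist (ρ : ℂ → ℝ) (G : Subgroup (ℂ ≃ᵢ ℂ)) (p q : ℂ) : ℝ :=
  sInf {l : ℝ | ∃ γ : ℝ → ℂ, ContDiff ℝ 1 γ ∧ γ 0 = p ∧ (∃ σ ∈ G, γ 1 = σ q) ∧ l = len ρ γ}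

/-- The geodesic disc of radius `r` with center `p`, as a `G`-invariant set. -/
def disc (ρ : ℂ → ℝ) (G : Subgroup (ℂ ≃ᵢ ℂ)) (p : ℂ) (r : ℝ) : Set ℂ := {q | gdist ρ G p q < r}

/-- The doubling index of `φ` on the geodesic disc of radius `r` with center `p`. -/
noncomputable def doubling (ρ : ℂ → ℝ) (G : Subgroup (ℂ ≃ᵢ ℂ)) (φ : ℂ → ℝ) (p : ℂ) (r : ℝ) : ℝ :=
  Real.logb 2 (sSup ((fun q => |φ q|) '' disc ρ G p (2 * r)) /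
    sSup ((fun q => |φ q|) '' disc ρ G p r))

/-- `φ` is a real eigenfunction with eigenvalue `lam > 0` of the Laplacian of `ℂ/G` with the metric
`ρ |dz|²`. -/
structure Eigen (ρ : ℂ → ℝ) (G : Subgroup (ℂ ≃ᵢ ℂ)) (lam : ℝ) (φ : ℂ → ℝ) : Prop where
  pos : 0 < lam
  smooth : ContDiff ℝ 2 φ
  inv : ∀ σ ∈ G, ∀ z, φ (σ z) = φ z
  ne : ∃ z, φ z ≠ 0
  eq : ∀ z, Laplacian.laplacian φ z + lam * ρ z * φ z = 0

/-- The discs of radius `C / √lam` with centers `c i` form an admissible covering for `φ` with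
constants `C`, `C₁`, `C₂`. -/
structure Admissible (ρ : ℂ → ℝ) (G : Subgroup (ℂ ≃ᵢ ℂ)) (lam : ℝ) (φ : ℂ → ℝ) (C C₁ C₂ : ℝ)
    {ι : Type} [Fintype ι] (c : ι → ℂ) : Prop where
  cover : ∀ q : ℂ, ∃ i, q ∈ disc ρ G (c i) (C / Real.sqrt lam)
  lower : C₂⁻¹ * lam ≤ Fintype.card ι
  upper : (Fintype.card ι : ℝ) ≤ C₂ * lam
  mult : ∀ q : ℂ, ({i | q ∈ disc ρ G (c i) (C / Real.sqrt lam)}.ncard : ℝ) ≤ C₁
  zero : ∀ i, φ (c i) = 0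

/-- The positive answer to the question for `ℂ/G` with the metric `ρ |dz|²`. -/
def Good (ρ : ℂ → ℝ) (G : Subgroup (ℂ ≃ᵢ ℂ)) : Prop :=
  ∀ C C₁ C₂ : ℝ, 0 < C → 0 < C₁ → 0 < C₂ → ∃ A : ℝ, 0 < A ∧ ∀ (lam : ℝ) (φ : ℂ → ℝ),
    Eigen ρ G lam φ → ∀ (ι : Type) [Fintype ι] (c : ι → ℂ), Admissible ρ G lam φ C C₁ C₂ c →
      (∑ i, doubling ρ G φ (c i) (C / Real.sqrt lam)) / Fintype.card ι ≤ A

/-- The translation `z ↦ z + v`. -/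
noncomputable def tr (v : ℂ) : ℂ ≃ᵢ ℂ := IsometryEquiv.addRight v

/-- The lattice generated by `v` and `w`. -/
noncomputable def lat (v w : ℂ) : Subgroup (ℂ ≃ᵢ ℂ) := Subgroup.closure {tr v, tr w}

/-- The same for the torus `ℝ²/⟨(L, α), (0, 2π)⟩` in the definitions of `Y291.DB`. -/
def GoodT (ρ : ℝ × ℝ → ℝ) (L α : ℝ) : Prop :=
  ∀ C C₁ C₂ : ℝ, 0 < C → 0 < C₁ → 0 < C₂ → ∃ A : ℝ, 0 < A ∧ ∀ (lam : ℝ) (φ : ℝ × ℝ → ℝ),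
    Pool.Agent.Y291.DB.Eigen ρ L α lam φ → ∀ (ι : Type) [Fintype ι] (c : ι → ℝ × ℝ),
      Pool.Agent.Y291.DB.Admissible ρ L α lam φ C C₁ C₂ c →
      (∑ i, Pool.Agent.Y291.DB.doubling ρ L α φ (c i) (C / Real.sqrt lam)) / Fintype.card ι ≤ A

/-- COVER: passage to the quotient of a finite covering. -/
def S_COVER : Prop := ∀ (ρ : ℂ → ℝ) (G H : Subgroup (ℂ ≃ᵢ ℂ)), Continuous ρ → (∀ z, 0 < ρ z) →
  (∀ σ ∈ G, ∀ z, ρ (σ z) = ρ z) → H ≤ G → H.relIndex G ≠ 0 → Good ρ H → Good ρ G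

/-- CONJ: change of coordinates by the similarity `z ↦ s τ(z)`. -/
def S_CONJ : Prop := ∀ (s : ℝ) (τ : ℂ ≃ᵢ ℂ) (ρ ρ' : ℂ → ℝ) (G G' : Subgroup (ℂ ≃ᵢ ℂ)), 0 < s →
  (∀ z, ρ' z = s ^ 2 * ρ (s * τ z)) →
  (∀ σ ∈ G, ∃ σ' ∈ G', ∀ z, σ (s * τ z) = s * τ (σ' z)) →
  (∀ σ' ∈ G', ∃ σ ∈ G, ∀ z, σ (s * τ z) = s * τ (σ' z)) → Good ρ' G' → Good ρ G

/-- BRIDGE: from the definitions on `ℝ × ℝ` to the ones on `ℂ`. -/
def S_BRIDGE : Prop := ∀ (ρ : ℂ → ℝ) (L α : ℝ), 0 < L → Continuous ρ → (∀ z, 0 < ρ z) →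
  GoodT (fun p => ρ (p.1 + p.2 * Complex.I)) L α →
  Good ρ (lat (L + α * Complex.I) (2 * Real.pi * Complex.I))

/-- SUB: sublattices have finite index. -/
def S_SUB : Prop := ∀ v w v' w' : ℂ, v.re * w.im - v.im * w.re ≠ 0 →
  v'.re * w'.im - v'.im * w'.re ≠ 0 → (∃ m n : ℤ, v' = m * v + n * w) →
  (∃ m n : ℤ, w' = m * v + n * w) → lat v' w' ≤ lat v w ∧ (lat v' w').relIndex (lat v w) ≠ 0

/-- LAT: the lattices which leave `f(x) + g(y)` invariant. -/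
def S_LAT : Prop := ∀ (v w : ℂ) (f g : ℝ → ℝ), v.re * w.im - v.im * w.re ≠ 0 →
  Continuous f → Continuous g →
  (∀ x y, f (x + v.re) + g (y + v.im) = f x + g y) →
  (∀ x y, f (x + w.re) + g (y + w.im) = f x + g y) →
  (∃ a b : ℝ, 0 < a ∧ 0 < b ∧ (∃ m n : ℤ, (a : ℂ) = m * v + n * w) ∧
    (∃ m n : ℤ, (b * Complex.I : ℂ) = m * v + n * w) ∧ (∀ x, f (x + a) = f x) ∧
    ∀ y, g (y + b) = g y) ∨
  (∃ κ : ℝ, (∀ y, g y = κ) ∧ ∃ L α b : ℝ, 0 < L ∧ 0 < b ∧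
    (∃ m n : ℤ, (L + α * Complex.I : ℂ) = m * v + n * w) ∧
    (∃ m n : ℤ, (b * Complex.I : ℂ) = m * v + n * w) ∧ ∀ x, f (x + L) = f x) ∨
  (∃ κ : ℝ, (∀ x, f x = κ) ∧ ∃ L α b : ℝ, 0 < L ∧ 0 < b ∧
    (∃ m n : ℤ, (α + L * Complex.I : ℂ) = m * v + n * w) ∧
    (∃ m n : ℤ, (b : ℂ) = m * v + n * w) ∧ ∀ y, g (y + L) = g y) ∨
  ∃ κ κ' : ℝ, (∀ x, f x = κ) ∧ ∀ y, g y = κ'

end Pool.Agent.N245.DS
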