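import Pool.Agent.Y291.DB.Defs
import Pool.Agent.N245.DS.Geo

set_option autoImplicit false

/-! # Sums of solutions of Sturm-Liouville equations without boundary conditions: statements -/

namespace Pool.Agent.N245.DS

open MeasureTheory Set

/-- `u` changes sign (at least) `n` times along an increasing sequence of points of `I`
(literally the same as `Pool.Agent.N273.LT.Alt`). -/
def Alt (u : ℝ → ℝ) (I : Set ℝ) (n : ℕ) : Prop :=
  ∃ t : ℕ → ℝ, (∀ i < n, t i < t (i + 1)) ∧ (∀ i ≤ n, t i ∈ I) ∧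
    ∀ i < n, u (t i) * u (t (i + 1)) < 0

/-- ROLLE: one step of Sturm's argument on an interval, without boundary conditions.
`G = F'' - (μ - q) F` with `q < μ`. -/
def S_ROLLE : Prop := ∀ (a b : ℝ) (p F F' G : ℝ → ℝ), Continuous G → Continuous p →
  (∀ x, 0 < p x) → (∀ x, HasDerivAt F (F' x) x) → (∀ x, HasDerivAt F' (p x * F x + G x) x) →
  ∀ M : ℕ, Alt F (Icc a b) M → ∃ M' : ℕ, Alt G (Icc a b) M' ∧
    M ≤ M' + (if F a * G a < 0 then 0 else 1) + (if F b * G b < 0 then 0 else 1)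

/-- DESC: the number of sign changes and zeros of an exponential sum. -/
def S_DESC : Prop := ∀ (m : ℕ) (c l : Fin m → ℝ), Function.Injective l → (∀ i, 0 < l i) →
  (∃ i, c i ≠ 0) → ∀ S : Finset ℕ,
  (∀ n ∈ S, (∑ i, c i * l i ^ n) * (∑ i, c i * l i ^ (n + 1)) ≤ 0) → S.card ≤ 2 * m

/-- LIM: functions which are `C¹`-near to a solution of `w'' = (ν - q) w`. -/
def S_LIM : Prop := ∀ (a b ν Q : ℝ) (q w w' : ℝ → ℝ), a < b → 0 ≤ Q → Continuous q →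
  (∀ x, |ν - q x| ≤ Q) → (∀ x, HasDerivAt w (w' x) x) →
  (∀ x, HasDerivAt w' ((ν - q x) * w x) x) → (∃ x, w x ≠ 0) →
  ∃ ε : ℝ, 0 < ε ∧ ∀ F F' : ℝ → ℝ, (∀ x, HasDerivAt F (F' x) x) →
    (∀ x ∈ Icc a b, |F x - w x| ≤ ε) → (∀ x ∈ Icc a b, |F' x - w' x| ≤ ε) →
    ∀ M : ℕ, Alt F (Icc a b) M → (M : ℝ) ≤ 4 + (b - a) * Real.sqrt Q

/-- STURM: Sturm's upper bound for sums of solutions without boundary conditions. -/
def S_STURM : Prop := ∀ (n : ℕ) (a b Q : ℝ) (q : ℝ → ℝ) (ν : Fin n → ℝ) (w w' : Fin n → ℝ → ℝ),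
  0 ≤ Q → Continuous q → Function.Injective ν → (∀ i x, |ν i - q x| ≤ Q) →
  (∀ i x, HasDerivAt (w i) (w' i x) x) → (∀ i x, HasDerivAt (w' i) ((ν i - q x) * w i x) x) →
  ∀ M : ℕ, Alt (fun x => ∑ i, w i x) (Ioo a b) M → (M : ℝ) ≤ 4 + (b - a) * Real.sqrt Q + 4 * n

/-- MODES: the eigenfunctions of a torus with a circle symmetry. -/
def S_MODES : Prop := ∀ (f : ℝ → ℝ) (L α lam F : ℝ) (φ : ℝ × ℝ → ℝ), 0 < L → Continuous f →
  (∀ x, f (x + L) = f x) → (∀ x, 0 < f x) → (∀ x, f x ≤ F) →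
  Pool.Agent.Y291.DB.Eigen (fun p => f p.1) L α lam φ →
  ∃ (K : ℕ) (a a' b b' : ℕ → ℝ → ℝ), (K : ℝ) ^ 2 ≤ lam * F ∧
    (∀ k x, HasDerivAt (a k) (a' k x) x) ∧
    (∀ k x, HasDerivAt (a' k) (((k : ℝ) ^ 2 - lam * f x) * a k x) x) ∧
    (∀ k x, HasDerivAt (b k) (b' k x) x) ∧
    (∀ k x, HasDerivAt (b' k) (((k : ℝ) ^ 2 - lam * f x) * b k x) x) ∧
    ∀ x y, φ (x, y) = ∑ k ∈ Finset.range (K + 1), (a k x * Real.cos (k * y) + b k x * Real.sin (k * y))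

/-- CNT: the numbers of sign changes on segments. -/
def S_CNT : Prop := ∀ F : ℝ, 0 < F → ∃ Z : ℝ, 0 < Z ∧
  ∀ (f : ℝ → ℝ) (L α lam : ℝ) (φ : ℝ × ℝ → ℝ), 0 < L → Continuous f →
  (∀ x, f (x + L) = f x) → (∀ x, 0 < f x) → (∀ x, f x ≤ F) →
  Pool.Agent.Y291.DB.Eigen (fun p => f p.1) L α lam φ →
  (∀ x a b (n : ℕ), a ≤ b → Alt (fun y => φ (x, y)) (Ioo a b) n →
    (n : ℝ) ≤ Z * (1 + (b - a)) * Real.sqrt (1 + lam)) ∧
  ∀ y a b (n : ℕ), a ≤ b → Alt (fun x => φ (x, y)) (Ioo a b) n →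
    (n : ℝ) ≤ Z * (1 + (b - a)) * Real.sqrt (1 + lam)

/-- TWIST: the positive answer for all tori with a circle symmetry. -/
def S_TWIST : Prop := ∀ (f : ℝ → ℝ) (L α : ℝ), 0 < L → Continuous f → (∀ x, f (x + L) = f x) →
  (∀ x, 0 < f x) → GoodT (fun p => f p.1) L α

end Pool.Agent.N245.DS
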