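import Pool.Agent.N273.LT.Gr
import Pool.Agent.N245.DS.St

set_option autoImplicit false

/-! # Doubling indices on tori with a circle symmetry: statements of the analytic parts -/

namespace Pool.Agent.N245.DS

open MeasureTheory Set
open Pool.Agent.N273.LT (UB zz)
open Pool.Agent.Y291.PA (Sol2)

/-- CHAIN: the growth along chains of boxes, without periodicity (see `N273.LT.chain`). -/
def S_CHAIN : Prop := ∃ C : ℝ, 0 < C ∧ ∀ (f g : ℝ → ℝ) (φ φx φxx φy φyy : ℝ → ℝ → ℝ),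
  Continuous f → Continuous g → Sol2 (fun x y => f x + g y) φ φx φxx φy φyy → UB φ →
  ∀ (r w X Y κ : ℝ) (N : ℕ), 0 < r → (∀ x, |r ^ 2 * f x| ≤ 1 / 100) →
  (∀ y, |r ^ 2 * g y| ≤ 1 / 100) → (N + 2) * r ≤ w →
  (∀ x y, |x - X| ≤ r → |y - Y| ≤ r → |φ x y| ≤ κ) →
  ∀ a b, |a - X| ≤ N * r → |b - Y| ≤ N * r →
    |φ a b| ≤ κ * Real.exp (N * (C * (1 + zz φ w X Y / r)))

end Pool.Agent.N245.DS
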