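import Pool.Agent.N247.DS.Rolle
import Pool.Agent.N543.DS.Desc
import Pool.Agent.N711.DS.Lim
import Pool.Agent.N492.DS.Sturm
import Pool.Agent.N434.DS.Modes
import Pool.Agent.N756.DS.Cnt
import Pool.Agent.N945.DS.Chain
import Pool.Agent.N296.DS.Twist
import Pool.Agent.N339.DS.Cover
import Pool.Agent.N878.DS.Conj
import Pool.Agent.N152.DS.Bridge
import Pool.Agent.N327.DS.Sub
import Pool.Agent.N712.DS.Lat

set_option autoImplicit false

/-! # Tori and Klein bottles with a circle symmetry: the parts put together -/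

namespace Pool.Agent.N245.DS

open Pool.Agent.N152.DS (mem_lat tr_apply)

theorem f_STURM : S_STURM :=
  Pool.Agent.N492.DS.sturm Pool.Agent.N247.DS.rolle Pool.Agent.N543.DS.desc Pool.Agent.N711.DS.lim

theorem f_CNT : S_CNT := Pool.Agent.N756.DS.cnt f_STURM Pool.Agent.N434.DSM.modes

theorem f_TWIST : S_TWIST := Pool.Agent.N296.DS.twist f_CNT Pool.Agent.N945.DS.chain

/-- Lattices which correspond to each other under a change of coordinates. -/
theorem lat_conj {T : ℂ → ℂ} {v w v' w' : ℂ}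
    (hT : ∀ (z : ℂ) (m n : ℤ), T (z + (m * v' + n * w')) = T z + (m * v + n * w)) :
    (∀ σ ∈ lat v w, ∃ σ' ∈ lat v' w', ∀ z, σ (T z) = T (σ' z)) ∧
    ∀ σ' ∈ lat v' w', ∃ σ ∈ lat v w, ∀ z, σ (T z) = T (σ' z) := by
  constructor
  · intro σ hσ
    obtain ⟨m, n, h⟩ := mem_lat.1 hσ
    exact ⟨tr (m * v' + n * w'), mem_lat.2 ⟨m, n, fun z => rfl⟩, fun z => by
      rw [h, tr_apply, hT]⟩
  · intro σ hσ
    obtain ⟨m, n, h⟩ := mem_lat.1 hσ
    exact ⟨tr (m * v + n * w), mem_lat.2 ⟨m, n, fun z => rfl⟩, fun z => by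
      rw [tr_apply, h, hT]⟩

/-- The twisted tori. -/
theorem good_twist {F : ℝ → ℝ} {L α : ℝ} (hL : 0 < L) (hF : Continuous F)
    (hFL : ∀ x, F (x + L) = F x) (hF0 : ∀ x, 0 < F x) :
    Good (fun z => F z.re) (lat (L + α * Complex.I) (2 * Real.pi * Complex.I)) := by
  refine Pool.Agent.N152.DS.bridge (fun z => F z.re) L α hL (hF.comp Complex.continuous_re)
    (fun z => hF0 _) ?_
  have h1 : (fun p : ℝ × ℝ => F ((p.1 : ℂ) + p.2 * Complex.I).re) = fun p => F p.1 := by
    funext p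
    simp
  rw [h1]
  exact f_TWIST F L α hL hF hFL hF0

/-- The same with another period in the direction of the symmetry. -/
theorem good_vert {F : ℝ → ℝ} {L α b : ℝ} (hL : 0 < L) (hb : 0 < b) (hF : Continuous F)
    (hFL : ∀ x, F (x + L) = F x) (hF0 : ∀ x, 0 < F x) :
    Good (fun z => F z.re) (lat (L + α * Complex.I) (b * Complex.I)) := by
  have hπ := Real.pi_pos
  obtain ⟨s, hs⟩ : ∃ s : ℝ, s = b / (2 * Real.pi) := ⟨_, rfl⟩
  have hs0 : 0 < s := by rw [hs]; positivity
  have hsC : (s : ℂ) ≠ 0 := by exact_mod_cast hs0.ne'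
  have hb' : (s : ℂ) * (2 * Real.pi) = b := by
    have : s * (2 * Real.pi) = b := by
      rw [hs]
      field_simp
    exact_mod_cast this
  have hconj := lat_conj (T := fun z => (s : ℂ) * (IsometryEquiv.refl ℂ) z)
    (v := L + α * Complex.I) (w := b * Complex.I)
    (v' := ((L / s : ℝ) : ℂ) + ((α / s : ℝ) : ℂ) * Complex.I) (w' := 2 * Real.pi * Complex.I) (by
      intro z m n
      show (s : ℂ) * (z + _) = (s : ℂ) * z + _
      rw [← hb']
      push_cast
      field_simp)
  refine Pool.Agent.N878.DS.conj s (IsometryEquiv.refl ℂ) (fun z => F z.re)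
    (fun z => s ^ 2 * F (s * z.re)) _ _ hs0 (fun z => ?_) hconj.1 hconj.2 ?_
  · show s ^ 2 * F (s * z.re) = s ^ 2 * F ((s : ℂ) * z).re
    rw [Complex.re_ofReal_mul]
  · exact good_twist (F := fun x => s ^ 2 * F (s * x)) (by positivity) (by fun_prop)
      (fun x => by
        show s ^ 2 * F (s * (x + L / s)) = s ^ 2 * F (s * x)
        have : s * (x + L / s) = s * x + L := by field_simp
        rw [this, hFL]) (fun x => by have := hF0 (s * x); positivity)

/-- Passage to a lattice which contains the given one. -/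
theorem good_sub {ρ : ℂ → ℝ} {v w v' w' : ℂ} (hρ : Continuous ρ) (hρ0 : ∀ z, 0 < ρ z)
    (hinv : ∀ σ ∈ lat v w, ∀ z, ρ (σ z) = ρ z) (h : v.re * w.im - v.im * w.re ≠ 0)
    (h' : v'.re * w'.im - v'.im * w'.re ≠ 0) (h1 : ∃ m n : ℤ, v' = m * v + n * w)
    (h2 : ∃ m n : ℤ, w' = m * v + n * w) (hg : Good ρ (lat v' w')) : Good ρ (lat v w) := by
  obtain ⟨h3, h4⟩ := Pool.Agent.N327.DS.sub v w v' w' h h' h1 h2
  exact Pool.Agent.N339.DS.cover ρ (lat v w) (lat v' w') hρ hρ0 hinv h3 h4 hg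

/-- Flat tori. -/
theorem good_flat {κ : ℝ} (hκ : 0 < κ) {v w : ℂ} (h : v.re * w.im - v.im * w.re ≠ 0) :
    Good (fun _ => κ) (lat v w) := by
  have hπ := Real.pi_pos
  have key : ∀ v w : ℂ, 0 < v.re * w.im - v.im * w.re → Good (fun _ => κ) (lat v w) := by
    intro v w h
    have hw : w ≠ 0 := by
      rintro rfl
      simp at h
    have hw0 : 0 < ‖w‖ := norm_pos_iff.2 hw
    obtain ⟨s, hs⟩ : ∃ s : ℝ, s = ‖w‖ / (2 * Real.pi) := ⟨_, rfl⟩
    have hs0 : 0 < s := by rw [hs]; positivity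
    obtain ⟨ω, hω⟩ : ∃ ω : ℂ, ω = w / (‖w‖ * Complex.I) := ⟨_, rfl⟩
    have hω1 : ‖ω‖ = 1 := by
      rw [hω, norm_div, norm_mul, Complex.norm_I, mul_one, Complex.norm_real, norm_norm,
        div_self hw0.ne']
    have hω0 : ω ≠ 0 := by
      intro h0
      rw [h0, norm_zero] at hω1
      norm_num at hω1
    have hsω : (s : ℂ) * ω * (2 * Real.pi * Complex.I) = w := by
      rw [hω, hs]
      push_cast
      have h1 : (‖w‖ : ℂ) ≠ 0 := by exact_mod_cast hw0.ne'
      have h2 : (Real.pi : ℂ) ≠ 0 := by exact_mod_cast hπ.ne'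
      have h3 := Complex.I_ne_zero
      field_simp
    obtain ⟨u, hu⟩ : ∃ u : ℂ, u = v / (s * ω) := ⟨_, rfl⟩
    have hsC : (s : ℂ) ≠ 0 := by exact_mod_cast hs0.ne'
    have hsu : (s : ℂ) * ω * u = v := by
      rw [hu]
      field_simp
    have hure : 0 < u.re := by
      have h1 : v.re * w.im - v.im * w.re = (v * (starRingEnd ℂ) w * Complex.I).re := by
        simp [Complex.mul_re, Complex.mul_im]
        ring
      have h2 : v * (starRingEnd ℂ) w * Complex.I = (((s * s * (2 * Real.pi)) : ℝ) : ℂ) * u := by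
        have h3 : ω * (starRingEnd ℂ) ω = 1 := by
          rw [Complex.mul_conj, Complex.normSq_eq_norm_sq, hω1]
          norm_num
        rw [← hsω, ← hsu]
        simp only [map_mul, Complex.conj_I, Complex.conj_ofReal, map_ofNat]
        push_cast
        calc (s : ℂ) * ω * u * (s * (starRingEnd ℂ) ω * (2 * Real.pi * -Complex.I)) * Complex.I
            = s * s * (2 * Real.pi) * u * (ω * (starRingEnd ℂ) ω) * (-(Complex.I * Complex.I)) := by
              ring
          _ = _ := by rw [h3, Complex.I_mul_I]; ring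
      rw [h1, h2, Complex.re_ofReal_mul] at h
      have h4 : 0 < s * s * (2 * Real.pi) := by positivity
      exact (mul_pos_iff_of_pos_left h4).1 h
    obtain ⟨τ, hτ⟩ : ∃ τ : ℂ ≃ᵢ ℂ, ∀ z, τ z = ω * z := by
      let c : Circle := ⟨ω, mem_sphere_zero_iff_norm.2 hω1⟩
      exact ⟨(rotation c).toIsometryEquiv, fun z => rfl⟩
    have hconj := lat_conj (T := fun z => (s : ℂ) * τ z) (v := v) (w := w)
      (v' := u.re + u.im * Complex.I) (w' := 2 * Real.pi * Complex.I) (by
        intro z m n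
        show (s : ℂ) * τ _ = (s : ℂ) * τ z + _
        rw [hτ, hτ, Complex.re_add_im, ← hsω, ← hsu]
        ring)
    refine Pool.Agent.N878.DS.conj s τ (fun _ => κ) (fun _ => s ^ 2 * κ) _ _ hs0 (fun z => rfl)
      hconj.1 hconj.2 ?_
    exact good_twist (F := fun _ => s ^ 2 * κ) hure continuous_const (fun x => rfl)
      (fun x => by positivity)
  rcases lt_or_gt_of_ne h with h1 | h1
  · refine good_sub (v' := -v) (w' := w) continuous_const (fun _ => hκ) (fun _ _ _ => rfl) h ?_
      ⟨-1, 0, by push_cast; ring⟩ ⟨0, 1, by push_cast; ring⟩ (key (-v) w ?_)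
    · simp only [Complex.neg_re, Complex.neg_im]
      intro h2
      apply h
      linarith
    · simp only [Complex.neg_re, Complex.neg_im]
      linarith
  · exact key v w h1

/-- **All tori with a circle symmetry.** -/
theorem good_lat {f : ℝ → ℝ} (hf : Continuous f) (hf0 : ∀ x, 0 < f x) {v w : ℂ}
    (h : v.re * w.im - v.im * w.re ≠ 0) (hv : ∀ x, f (x + v.re) = f x)
    (hw : ∀ x, f (x + w.re) = f x) : Good (fun z => f z.re) (lat v w) := by
  by_cases hc : ∃ κ, ∀ x, f x = κ
  · obtain ⟨κ, hκ⟩ := hc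
    have h1 : (fun z : ℂ => f z.re) = fun _ => κ := by
      funext z
      exact hκ _
    rw [h1]
    exact good_flat (by rw [← hκ 0]; exact hf0 0) h
  have hρ : Continuous fun z : ℂ => f z.re := hf.comp Complex.continuous_re
  have hinv : ∀ σ ∈ lat v w, ∀ z : ℂ, f (σ z).re = f z.re := by
    intro σ hσ
    unfold lat at hσ
    induction hσ using Subgroup.closure_induction with
    | mem x hx =>
      intro z
      rcases hx with rfl | hx
      · rw [tr_apply, Complex.add_re, hv]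
      · rw [Set.mem_singleton_iff] at hx
        rw [hx, tr_apply, Complex.add_re, hw]
    | one => intro z; rfl
    | mul x y _ _ hx hy =>
      intro z
      rw [IsometryEquiv.mul_apply, hx, hy]
    | inv x _ hx =>
      intro z
      have h1 := hx (x⁻¹ z)
      have h2 : x (x⁻¹ z) = z := by
        rw [← IsometryEquiv.mul_apply, mul_inv_cancel]
        rfl
      rw [h2] at h1
      exact h1.symm
  rcases Pool.Agent.N712.DS.lattice v w f (fun _ => 0) h hf continuous_const
    (fun x y => by rw [hv]) (fun x y => by rw [hw]) with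
    ⟨a, b, ha, hb, h1, h2, h3, -⟩ | ⟨κ, -, L, α, b, hL, hb, h1, h2, h3⟩ | ⟨κ, h1, -⟩ |
    ⟨κ, κ', h1, -⟩
  · refine good_sub (v' := a + (0 : ℝ) * Complex.I) (w' := b * Complex.I) hρ (fun z => hf0 _) hinv h
      ?_ ?_ h2 (good_vert (F := f) ha hb hf h3 hf0)
    · simp
      exact ⟨ha.ne', hb.ne'⟩
    · obtain ⟨m, n, h4⟩ := h1
      exact ⟨m, n, by rw [← h4]; simp⟩
  · refine good_sub (v' := L + α * Complex.I) (w' := b * Complex.I) hρ (fun z => hf0 _) hinv h
      ?_ h1 h2 (good_vert (F := f) hL hb hf h3 hf0)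
    simp
    exact ⟨hL.ne', hb.ne'⟩
  · exact absurd ⟨κ, h1⟩ hc
  · exact absurd ⟨κ, h1⟩ hc

/-- **All quotients of the plane by crystallographic groups, with a metric which depends on one
coordinate only.** -/
theorem good_group {f : ℝ → ℝ} (hf : Continuous f) (hf0 : ∀ x, 0 < f x)
    {G : Subgroup (ℂ ≃ᵢ ℂ)} (hG : ∀ σ ∈ G, ∀ z : ℂ, f (σ z).re = f z.re) {v w : ℂ}
    (h : v.re * w.im - v.im * w.re ≠ 0) (hle : lat v w ≤ G) (hfin : (lat v w).relIndex G ≠ 0) :
    Good (fun z => f z.re) G := by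
  have hρ : Continuous fun z : ℂ => f z.re := hf.comp Complex.continuous_re
  have h1 : ∀ u : ℂ, tr u ∈ lat v w → ∀ x : ℝ, f (x + u.re) = f x := by
    intro u hu x
    have h2 := hG _ (hle hu) (x : ℂ)
    rwa [tr_apply, Complex.add_re, Complex.ofReal_re] at h2
  exact Pool.Agent.N339.DS.cover _ G (lat v w) hρ (fun z => hf0 _) hG hle hfin
    (good_lat hf hf0 h (h1 v (Subgroup.subset_closure (Set.mem_insert _ _)))
      (h1 w (Subgroup.subset_closure (Set.mem_insert_of_mem _ rfl))))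

end Pool.Agent.N245.DS
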