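import Pool.Agent.N295.SR.Stm3

set_option autoImplicit false

/-! # Doubling indices on projective planes of revolution

The projective plane `S²/±` with the metric `ρ(x₃) g`, where `g` is the round metric and `ρ` is even.
The functions on it and the subsets of it are the even ones of the sphere. -/

namespace Pool.Agent.N245.DS

open MeasureTheory
open Pool.Agent.N295.SR (E3 len)

/-- The Riemannian distance on the projective plane. -/
noncomputable def pdist (ρ : ℝ → ℝ) (p q : E3) : ℝ :=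
  sInf {l : ℝ | ∃ γ : ℝ → E3, ContDiff ℝ 1 γ ∧ (∀ s, ‖γ s‖ = 1) ∧ γ 0 = p ∧
    (γ 1 = q ∨ γ 1 = -q) ∧ l = len ρ γ}

/-- The geodesic disc. -/
def pdisc (ρ : ℝ → ℝ) (p : E3) (r : ℝ) : Set E3 := {q | ‖q‖ = 1 ∧ pdist ρ p q < r}

/-- The doubling index of `φ` on the geodesic disc of radius `r` with center `p`. -/
noncomputable def pdoubling (ρ : ℝ → ℝ) (φ : E3 → ℝ) (p : E3) (r : ℝ) : ℝ :=
  Real.logb 2 (sSup ((fun q => |φ q|) '' pdisc ρ p (2 * r)) /
    sSup ((fun q => |φ q|) '' pdisc ρ p r))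

/-- The discs of radius `C / √lam` with centers `c i` form an admissible covering for `φ` with
constants `C`, `C₁`, `C₂`. -/
structure PAdmissible (ρ : ℝ → ℝ) (lam : ℝ) (φ : E3 → ℝ) (C C₁ C₂ : ℝ)
    {ι : Type} [Fintype ι] (c : ι → E3) : Prop where
  mem : ∀ i, ‖c i‖ = 1
  cover : ∀ q : E3, ‖q‖ = 1 → ∃ i, q ∈ pdisc ρ (c i) (C / Real.sqrt lam)
  lower : C₂⁻¹ * lam ≤ Fintype.card ι
  upper : (Fintype.card ι : ℝ) ≤ C₂ * lam
  mult : ∀ q : E3, ‖q‖ = 1 → ({i | q ∈ pdisc ρ (c i) (C / Real.sqrt lam)}.ncard : ℝ) ≤ C₁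
  zero : ∀ i, φ (c i) = 0

/-- RP: the positive answer for projective planes of revolution. The eigenfunctions of the projective
plane are the even eigenfunctions of the sphere. -/
def S_RP : Prop := ∀ ρ : ℝ → ℝ, Continuous ρ → (∀ z, 0 < ρ z) → (∀ z, ρ (-z) = ρ z) →
  ∀ C C₁ C₂ : ℝ, 0 < C → 0 < C₁ → 0 < C₂ → ∃ A : ℝ, 0 < A ∧ ∀ (lam : ℝ) (φ : E3 → ℝ),
    Pool.Agent.N295.SR.Eigen ρ lam φ → (∀ p : E3, φ (-p) = φ p) →
    ∀ (ι : Type) [Fintype ι] (c : ι → E3), PAdmissible ρ lam φ C C₁ C₂ c →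
    (∑ i, pdoubling ρ φ (c i) (C / Real.sqrt lam)) / Fintype.card ι ≤ A

end Pool.Agent.N245.DS
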